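import Mathlib

/-!
Definitions for binary generalized pseudostandard words.  The letter `0` is `false` and the letter
`1` is `true`; an infinite word is a function `ℕ → Bool`.
-/

set_option autoImplicit false

namespace Pool.Agent.Lib.MP_b60f05_co

/-- The prefix of length `n` of the infinite word `u`. -/
def pref (u : ℕ → Bool) (n : ℕ) : List Bool := (List.range n).map u

/-- The finite word `w` is a prefix of the infinite word `u`. -/
def IsPref (w : List Bool) (u : ℕ → Bool) : Prop := w = pref u w.length

/-- `u` is not eventually periodic. -/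
def Aperiodic (u : ℕ → Bool) : Prop := ¬ ∃ N p : ℕ, 0 < p ∧ ∀ n, N ≤ n → u (n + p) = u n

/-- The antimorphisms: `anti false` is the reversal `R`, and `anti true` is `E`. -/
def anti (e : Bool) (w : List Bool) : List Bool :=
  if e = true then (w.map not).reverse else w.reverse

/-- `z` is the shortest `anti e`-palindrome having `w` as a prefix. -/
def IsClosure (e : Bool) (w z : List Bool) : Prop :=
  anti e z = z ∧ w <+: z ∧ ∀ z' : List Bool, anti e z' = z' → w <+: z' → z.length ≤ z'.length

/-- `u` is the generalized pseudostandard word with directive bi-sequence `(Δ, Θ)`. -/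
def Generates (Δ Θ : ℕ → Bool) (u : ℕ → Bool) : Prop :=
  ∃ w : ℕ → List Bool, w 0 = [] ∧ (∀ n, IsClosure (Θ n) (w n ++ [Δ n]) (w (n + 1))) ∧
    ∀ n, IsPref (w n) u

/-- `u` is a fixed point of the (non-erasing) morphism `φ`. -/
def Fixes (φ : Bool → List Bool) (u : ℕ → Bool) : Prop :=
  ∀ n, IsPref ((pref u n).flatMap φ) u

/-- The morphism `φ` is primitive. -/
def Primitive (φ : Bool → List Bool) : Prop :=
  ∃ n, 1 ≤ n ∧ ∀ a b : Bool, b ∈ (fun w : List Bool => w.flatMap φ)^[n] [a]

/-- The morphism `φ_k : 0 ↦ 0(110)^k, 1 ↦ 1(001)^k`. -/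
def phi (k : ℕ) : Bool → List Bool
  | false => false :: (List.replicate k [true, true, false]).flatten
  | true => true :: (List.replicate k [false, false, true]).flatten

end Pool.Agent.Lib.MP_b60f05_co
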