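import Mathlib
import Pool.Agent.Lib.MP_b60f05_co.Defs

/-!
The fixed point starting with `0` of the uniform morphism `0 ↦ 01101101001001101101001001` (and
`1` to the complement) is an aperiodic generalized pseudostandard word, with pseudopalindromic
prefixes of lengths `26^j`, `2·26^j`, `4·26^j`, `7·26^j`, `14·26^j`.
-/

set_option autoImplicit false

namespace Pool.Agent.Lib.MP_b60f05_co.W26

/-- The image of `0`. -/
def blockList : List Bool :=
  [false, true, true, false, true, true, false, true, false, false, true, false, false,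
    true, true, false, true, true, false, true, false, false, true, false, false, true]

/-- The letters of the image of `0`. -/
def blk (r : ℕ) : Bool := blockList.getD r false

/-- The morphism of the counterexample. -/
def psi (a : Bool) : List Bool := blockList.map (fun b => xor a b)

/-- The fixed point of `psi` starting with `0`. -/
def uu (n : ℕ) : Bool :=
  if h : n = 0 then false else xor (uu (n / 26)) (blk (n % 26))
  decreasing_by omega

theorem uu_zero : uu 0 = false := by
  rw [uu]; simp

theorem uu_eq (n : ℕ) : uu n = xor (uu (n / 26)) (blk (n % 26)) := by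
  by_cases h : n = 0
  · subst h
    simp only [Nat.zero_div, Nat.zero_mod, uu_zero]
    rfl
  · conv_lhs => rw [uu]
    simp [h]

theorem uu_mul_add (n r : ℕ) (hr : r < 26) : uu (26 * n + r) = xor (uu n) (blk r) := by
  rw [uu_eq]
  have h1 : (26 * n + r) / 26 = n := by omega
  have h2 : (26 * n + r) % 26 = r := by omega
  rw [h1, h2]

theorem uu_of_eq (m n r : ℕ) (hr : r < 26) (h : m = 26 * n + r) :
    uu m = xor (uu n) (blk r) := by
  rw [h, uu_mul_add n r hr]

theorem uu_small (n : ℕ) (hn : n < 26) : uu n = blk n := by
  rw [uu_of_eq n 0 n hn (by omega), uu_zero]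
  simp

/-- The first 676 letters. -/
def vv (n : ℕ) : Bool := xor (blk (n / 26)) (blk (n % 26))

theorem uu_vv (n : ℕ) (hn : n < 676) : uu n = vv n := by
  rw [uu_eq, uu_small _ (by omega)]
  rfl

/-- The prefix of length `l` is an `e`-palindrome. -/
def Pal (l : ℕ) (e : Bool) : Prop := ∀ i j, i + j + 1 = l → xor (uu i) (uu j) = e

/-- The suffix of the prefix of length `l + 1` centred at `c / 2` is an `e`-palindrome. -/
def Bad (l c : ℕ) (e : Bool) : Prop :=
  ∀ i j, i ≤ l → j ≤ l → i + j = c → xor (uu i) (uu j) = e

/-- The prefix of length `l'` is the `e`-closure of the prefix of length `l + 1`. -/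
def Good (l l' : ℕ) (e : Bool) : Prop :=
  Pal l' e ∧ l < l' ∧ ∀ c, l ≤ c → c + 2 ≤ l' → ¬ Bad l c e

theorem blk_symm : ∀ r, r < 26 → ∀ s, s < 26 → r + s = 25 → xor (blk r) (blk s) = true := by
  decide

theorem pal_step {l : ℕ} {e : Bool} (h : Pal l e) : Pal (26 * l) (!e) := by
  intro i j hij
  have h1 := h (i / 26) (j / 26) (by omega)
  have h2 := blk_symm (i % 26) (by omega) (j % 26) (by omega) (by omega)
  rw [uu_eq i, uu_eq j]
  revert h1 h2
  generalize uu (i / 26) = a
  generalize uu (j / 26) = b
  generalize blk (i % 26) = c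
  generalize blk (j % 26) = d
  clear h
  revert a b c d e
  decide

theorem bad_aligned {l c : ℕ} {e : Bool} (hc : c < 2 * l) (h : Bad (26 * l) (26 * c + 25) (!e)) :
    Bad l c e := by
  have key : ∀ i j, i < l → j ≤ l → i + j = c → xor (uu i) (uu j) = e := by
    intro i j hi hj hij
    have h1 := h (26 * i + 25) (26 * j + 0) (by omega) (by omega) (by omega)
    rw [uu_mul_add _ _ (by norm_num), uu_mul_add _ _ (by norm_num)] at h1
    have e1 : blk 25 = true := rfl
    have e2 : blk 0 = false := rfl
    rw [e1, e2] at h1
    revert h1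
    generalize uu i = a
    generalize uu j = b
    clear h
    revert a b e
    decide
  intro i j hi hj hij
  by_cases hil : i < l
  · exact key i j hil hj hij
  · have := key j i (by omega) hi (by omega)
    rw [Bool.xor_comm]
    exact this

theorem window_long : ∀ s, s < 25 → ∀ a e x y z : Bool,
    ¬ ∀ t, t < 52 → xor (xor (if t < 26 then a else !a) (blk (25 - t % 26)))
      (xor (if (s + 1 + t) / 26 = 0 then x else if (s + 1 + t) / 26 = 1 then y else z)
        (blk ((s + 1 + t) % 26))) = e := by
  decide +kernel

/-- The last 53 letters, read backwards: the letter `1`, then two blocks. -/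
def tail (a : Bool) (t : ℕ) : Bool :=
  if t = 0 then true else xor (if t ≤ 26 then a else !a) (blk (25 - (t - 1) % 26))

theorem window_short : ∀ m, m < 52 → 2 ≤ m → ∀ a : Bool,
    ¬ ∀ t, t ≤ m → xor (tail a t) (tail a (m - t)) = a := by
  decide +kernel

theorem last_two {l : ℕ} (hl : 26 ∣ l) (hpos : 0 < l) : uu (l - 2) = !uu (l - 1) := by
  obtain ⟨m, rfl⟩ := hl
  rw [uu_of_eq (26 * m - 2) (m - 1) 24 (by norm_num) (by omega),
    uu_of_eq (26 * m - 1) (m - 1) 25 (by norm_num) (by omega)]
  have e1 : blk 25 = true := rfl
  have e2 : blk 24 = false := rfl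
  rw [e1, e2]
  cases uu (m - 1) <;> rfl

theorem back_letter {l : ℕ} (hl : 26 ∣ l) (hpos : 0 < l) (t : ℕ) (ht : t < 52) :
    uu (26 * l - 1 - t) =
      xor (if t < 26 then uu (l - 1) else !uu (l - 1)) (blk (25 - t % 26)) := by
  have h26 : 26 ≤ l := Nat.le_of_dvd hpos hl
  by_cases h : t < 26
  · rw [if_pos h]
    exact uu_of_eq _ _ _ (by omega) (by omega)
  · rw [if_neg h, ← last_two hl hpos]
    exact uu_of_eq _ _ _ (by omega) (by omega)

theorem not_bad_long {l c : ℕ} {e : Bool} (hl : 26 ∣ l) (hpos : 0 < l) (hc1 : 26 * l ≤ c)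
    (hc2 : c + 52 ≤ 52 * l) (hs : c % 26 ≠ 25) : ¬ Bad (26 * l) c e := by
  intro h
  have h26 : 26 ≤ l := Nat.le_of_dvd hpos hl
  apply window_long (c % 26) (by omega) (uu (l - 1)) e (uu (c / 26 - l)) (uu (c / 26 - l + 1))
    (uu (c / 26 - l + 2))
  intro t ht
  have h1 := h (26 * l - 1 - t) (c - 26 * l + 1 + t) (by omega) (by omega) (by omega)
  rw [back_letter hl hpos t ht] at h1
  have h2 : uu (c - 26 * l + 1 + t) =
      xor (if (c % 26 + 1 + t) / 26 = 0 then uu (c / 26 - l)
        else if (c % 26 + 1 + t) / 26 = 1 then uu (c / 26 - l + 1) else uu (c / 26 - l + 2))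
        (blk ((c % 26 + 1 + t) % 26)) := by
    split_ifs with k1 k2
    · exact uu_of_eq _ _ _ (by omega) (by omega)
    · exact uu_of_eq _ _ _ (by omega) (by omega)
    · exact uu_of_eq _ _ _ (by omega) (by omega)
  rw [h2] at h1
  exact h1

theorem not_bad_short {l c : ℕ} (hl : 26 ∣ l) (hpos : 0 < l) (hu : uu l = true)
    (hc1 : 52 * l < c + 52) (hc2 : c + 2 ≤ 52 * l) : ¬ Bad (26 * l) c (uu (l - 1)) := by
  intro h
  have h26 : 26 ≤ l := Nat.le_of_dvd hpos hl
  have ht : ∀ t, t < 52 → uu (26 * l - t) = tail (uu (l - 1)) t := by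
    intro t ht
    unfold tail
    by_cases h0 : t = 0
    · rw [if_pos h0, uu_of_eq _ l 0 (by norm_num) (by omega), hu]
      rfl
    · rw [if_neg h0]
      have h1 := back_letter hl hpos (t - 1) (by omega)
      have h2 : 26 * l - 1 - (t - 1) = 26 * l - t := by omega
      rw [h2] at h1
      rw [h1]
      have h3 : (t - 1 < 26) ↔ (t ≤ 26) := by omega
      simp only [h3]
  apply window_short (52 * l - c) (by omega) (by omega) (uu (l - 1))
  intro t htm
  rw [← ht t (by omega), ← ht (52 * l - c - t) (by omega)]
  exact h _ _ (by omega) (by omega) (by omega)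

/-- The invariant of the induction. -/
def Inv (l l' : ℕ) (e : Bool) : Prop :=
  Good l l' e ∧ 26 ∣ l ∧ 0 < l ∧ uu l = true ∧ l' ≤ 2 * l ∧ (l' + 2 ≤ 2 * l ∨ uu (l - 1) = !e)

theorem inv_step {l l' : ℕ} {e : Bool} (h : Inv l l' e) : Inv (26 * l) (26 * l') (!e) := by
  obtain ⟨⟨hp, hlt, hb⟩, hl, hpos, hu, hle, hor⟩ := h
  refine ⟨⟨pal_step hp, by omega, ?_⟩, dvd_mul_right _ _, by omega, ?_, by omega, ?_⟩
  · intro c hc1 hc2 hbad
    by_cases hs : c % 26 = 25
    · have hc : c = 26 * (c / 26) + 25 := by omega
      rw [hc] at hbad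
      exact hb (c / 26) (by omega) (by omega) (bad_aligned (by omega) hbad)
    · by_cases hlong : c + 52 ≤ 52 * l
      · exact not_bad_long hl hpos hc1 hlong hs hbad
      · rcases hor with hor | hor
        · omega
        · rw [← hor] at hbad
          exact not_bad_short hl hpos hu (by omega) (by omega) hbad
  · rw [uu_of_eq _ l 0 (by norm_num) (by omega), hu]
    rfl
  · rcases hor with hor | hor
    · left; omega
    · right
      rw [uu_of_eq (26 * l - 1) (l - 1) 25 (by norm_num) (by omega), hor]
      have e1 : blk 25 = true := rfl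
      rw [e1]
      cases e <;> rfl

/-- A decidable form of `Good` for short prefixes. -/
def GoodFin (l l' : ℕ) (e : Bool) : Prop :=
  (∀ i, i < l' → xor (vv i) (vv (l' - 1 - i)) = e) ∧ l < l' ∧
    ∀ c, c < l' - 1 → l ≤ c → ∃ i, i < l + 1 ∧ c - i ≤ l ∧ xor (vv i) (vv (c - i)) ≠ e

instance (l l' : ℕ) (e : Bool) : Decidable (GoodFin l l' e) := by
  unfold GoodFin
  infer_instance

theorem good_of_fin {l l' : ℕ} {e : Bool} (hl' : l' ≤ 676) (h : GoodFin l l' e) :
    Good l l' e := by
  obtain ⟨h1, h2, h3⟩ := h
  refine ⟨?_, h2, ?_⟩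
  · intro i j hij
    have := h1 i (by omega)
    rw [show l' - 1 - i = j by omega] at this
    rw [uu_vv i (by omega), uu_vv j (by omega)]
    exact this
  · intro c hc1 hc2 hbad
    obtain ⟨i, k1, k2, k3⟩ := h3 c (by omega) hc1
    apply k3
    rw [← uu_vv i (by omega), ← uu_vv (c - i) (by omega)]
    exact hbad _ _ (by omega) k2 (by omega)

/-- The lengths of the words `w_n`. -/
def len : ℕ → ℕ
  | 0 => 0
  | 1 => 1
  | 2 => 2
  | 3 => 4
  | 4 => 7
  | 5 => 14
  | n + 6 => 26 * len (n + 1)

/-- The directive sequence of antimorphisms. -/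
def th : ℕ → Bool
  | 0 => false
  | 1 => true
  | 2 => false
  | 3 => false
  | 4 => true
  | 5 => true
  | n + 6 => !th (n + 1)

theorem inv_all (n : ℕ) : Inv (len (n + 6)) (len (n + 7)) (th (n + 6)) := by
  induction n using Nat.strong_induction_on with
  | _ n ih =>
    match n, ih with
    | 0, _ =>
      refine ⟨good_of_fin (by decide) (by decide +kernel), by decide, by decide, ?_, by decide,
        Or.inr ?_⟩
      · rw [uu_vv _ (by decide)]; rfl
      · rw [uu_vv _ (by decide)]; rfl
    | 1, _ =>
      refine ⟨good_of_fin (by decide) (by decide +kernel), by decide, by decide, ?_, by decide,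
        Or.inr ?_⟩
      · rw [uu_vv _ (by decide)]; rfl
      · rw [uu_vv _ (by decide)]; rfl
    | 2, _ =>
      refine ⟨good_of_fin (by decide) (by decide +kernel), by decide, by decide, ?_, by decide,
        Or.inl (by decide)⟩
      · rw [uu_vv _ (by decide)]; rfl
    | 3, _ =>
      refine ⟨good_of_fin (by decide) (by decide +kernel), by decide, by decide, ?_, by decide,
        Or.inr ?_⟩
      · rw [uu_vv _ (by decide)]; rfl
      · rw [uu_vv _ (by decide)]; rfl
    | 4, _ =>
      refine ⟨good_of_fin (by decide) (by decide +kernel), by decide, by decide, ?_, by decide,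
        Or.inl (by decide)⟩
      · rw [uu_vv _ (by decide)]; rfl
    | m + 5, ih => exact inv_step (ih m (by omega))

theorem good_all (n : ℕ) : Good (len n) (len (n + 1)) (th n) := by
  match n with
  | 0 => exact good_of_fin (by decide) (by decide +kernel)
  | 1 => exact good_of_fin (by decide) (by decide +kernel)
  | 2 => exact good_of_fin (by decide) (by decide +kernel)
  | 3 => exact good_of_fin (by decide) (by decide +kernel)
  | 4 => exact good_of_fin (by decide) (by decide +kernel)
  | 5 => exact good_of_fin (by decide) (by decide +kernel)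
  | m + 6 => exact (inv_all m).1

theorem length_pref (u : ℕ → Bool) (n : ℕ) : (pref u n).length = n := by
  simp [pref]

theorem getElem_pref (u : ℕ → Bool) (n i : ℕ) (h : i < (pref u n).length) :
    (pref u n)[i] = u i := by
  simp [pref]

theorem pref_succ (u : ℕ → Bool) (n : ℕ) : pref u (n + 1) = pref u n ++ [u n] := by
  simp [pref, List.range_succ]

theorem isPref_pref (u : ℕ → Bool) (n : ℕ) : IsPref (pref u n) u := by
  unfold IsPref
  rw [length_pref]

theorem pref_le (u : ℕ → Bool) {m n : ℕ} (h : m ≤ n) : pref u m <+: pref u n := by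
  induction n, h using Nat.le_induction with
  | base => exact List.prefix_refl _
  | succ n _ ih =>
    rw [pref_succ]
    exact ih.trans (List.prefix_append _ _)

theorem length_anti (e : Bool) (w : List Bool) : (anti e w).length = w.length := by
  unfold anti
  split_ifs <;> simp

theorem getElem_anti (e : Bool) (w : List Bool) (i : ℕ) (h : i < (anti e w).length) :
    (anti e w)[i] = xor e (w[w.length - 1 - i]'(by rw [length_anti] at h; omega)) := by
  cases e <;> simp [anti]

theorem closure_of_good {l l' : ℕ} {e : Bool} (h : Good l l' e) :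
    IsClosure e (pref uu l ++ [uu l]) (pref uu l') := by
  obtain ⟨hp, hlt, hb⟩ := h
  rw [← pref_succ]
  refine ⟨?_, pref_le _ hlt, ?_⟩
  · apply List.ext_getElem (length_anti _ _)
    intro i h1 h2
    rw [getElem_anti, getElem_pref, getElem_pref, length_pref]
    rw [length_pref] at h2
    have := hp i (l' - 1 - i) (by omega)
    rw [← this]
    cases uu i <;> cases uu (l' - 1 - i) <;> rfl
  · intro z hz hpre
    rw [length_pref]
    by_contra hlen
    have hlen2 := hpre.length_le
    rw [length_pref] at hlen2
    have hget : ∀ i (hi : i ≤ l), z[i]'(by omega) = uu i := by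
      intro i hi
      have := hpre.getElem (i := i) (by rw [length_pref]; omega)
      rw [← this, getElem_pref]
    apply hb (z.length - 1) (by omega) (by omega)
    intro i j hi hj hij
    have h1 : (anti e z)[i]'(by rw [length_anti]; omega) = z[i]'(by omega) := by
      simp only [hz]
    rw [getElem_anti, hget i hi] at h1
    have h2 : z[z.length - 1 - i]'(by omega) = uu j := by
      have h3 : z.length - 1 - i = j := by omega
      simp only [h3]
      exact hget j hj
    rw [h2] at h1
    rw [← h1]
    cases e <;> cases uu j <;> rfl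

theorem generates_uu : Generates (fun n => uu (len n)) th uu :=
  ⟨fun n => pref uu (len n), rfl, fun n => closure_of_good (good_all n),
    fun _ => isPref_pref _ _⟩

theorem shift_check : ∀ s, s < 26 → 0 < s → ∀ x y z : Bool,
    (∀ r, r < 26 → xor (if r + s < 26 then y else z) (blk ((r + s) % 26)) = xor x (blk r)) →
      y = z := by
  decide +kernel

theorem aperiodic_uu : Aperiodic uu := by
  rintro ⟨N, p, hp, h⟩
  induction p using Nat.strong_induction_on with
  | _ p ih =>
    by_cases hs : p % 26 = 0
    · refine ih (p / 26) (by omega) (by omega) ?_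
      intro n hn
      have h1 := h (26 * n) (by omega)
      rw [uu_of_eq (26 * n + p) (n + p / 26) 0 (by norm_num) (by omega),
        uu_of_eq (26 * n) n 0 (by norm_num) (by omega)] at h1
      have e2 : blk 0 = false := rfl
      simpa [e2] using h1
    · have key : ∀ n, N ≤ n → uu (n + p / 26) = uu (n + p / 26 + 1) := by
        intro n hn
        apply shift_check (p % 26) (by omega) (by omega) (uu n)
        intro r hr
        have h1 := h (26 * n + r) (by omega)
        rw [uu_mul_add n r hr] at h1
        rw [← h1]
        split_ifs with k1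
        · exact (uu_of_eq _ _ _ (by omega) (by omega)).symm
        · exact (uu_of_eq _ _ _ (by omega) (by omega)).symm
      have h2 := key (26 * (N + p) - p / 26) (by omega)
      rw [uu_of_eq _ (N + p) 0 (by norm_num) (by omega),
        uu_of_eq (26 * (N + p) - p / 26 + p / 26 + 1) (N + p) 1 (by norm_num) (by omega)] at h2
      have e1 : blk 1 = true := rfl
      have e2 : blk 0 = false := rfl
      rw [e1, e2] at h2
      revert h2
      cases uu (N + p) <;> simp

theorem pref_vv (n : ℕ) (hn : n ≤ 676) : pref uu n = pref vv n := by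
  unfold pref
  apply List.map_congr_left
  intro i hi
  rw [List.mem_range] at hi
  exact uu_vv i (by omega)

theorem not_sturmian : ¬ ∃ Δ, Generates Δ (fun _ => false) uu := by
  rintro ⟨Δ, w, h0, hc, hp⟩
  have c0 := hc 0
  have c1 := hc 1
  have p1 := hp 1
  have p2 := hp 2
  rw [h0] at c0
  simp only [List.nil_append, Nat.zero_add] at c0
  have l1 : (w 1).length ≤ 1 := c0.2.2 [Δ 0] (by simp [anti]) (List.prefix_refl _)
  have l1' : 1 ≤ (w 1).length := c0.2.1.length_le
  have e1 : w 1 = [false] := by
    unfold IsPref at p1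
    rw [p1, show (w 1).length = 1 by omega, pref_vv _ (by norm_num)]
    rfl
  rw [e1] at c1
  have l2 : (w 2).length ≤ 3 :=
    c1.2.2 [false, Δ 1, false] (by simp [anti]) ⟨[false], by simp⟩
  have l2' : 2 ≤ (w 2).length := c1.2.1.length_le
  have hpal : anti false (w 2) = w 2 := c1.1
  unfold IsPref at p2
  have : (w 2).length = 2 ∨ (w 2).length = 3 := by omega
  rcases this with h | h
  · rw [h, pref_vv _ (by norm_num)] at p2
    rw [p2] at hpal
    revert hpal
    decide
  · rw [h, pref_vv _ (by norm_num)] at p2
    rw [p2] at hpal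
    revert hpal
    decide

theorem primitive_psi : Primitive psi := ⟨1, le_refl _, by decide⟩

theorem flatMap_psi (n : ℕ) : (pref uu n).flatMap psi = pref uu (26 * n) := by
  induction n with
  | zero => rfl
  | succ n ih =>
    rw [pref_succ, List.flatMap_append, ih]
    have h : pref uu (26 * (n + 1)) =
        pref uu (26 * n) ++ (List.range 26).map (fun r => uu (26 * n + r)) := by
      unfold pref
      rw [show 26 * (n + 1) = 26 * n + 26 by ring, List.range_add, List.map_append, List.map_map]
      rfl
    rw [h]
    congr 1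
    have h2 : (List.range 26).map (fun r => uu (26 * n + r)) =
        (List.range 26).map (fun r => xor (uu n) (blk r)) := by
      apply List.map_congr_left
      intro r hr
      exact uu_mul_add n r (List.mem_range.mp hr)
    rw [h2]
    cases uu n <;> rfl

theorem fixes_psi : Fixes psi uu := by
  intro n
  rw [flatMap_psi]
  exact isPref_pref _ _

theorem isPref_getElem {w : List Bool} {u : ℕ → Bool} (h : IsPref w u) (i : ℕ)
    (hi : i < w.length) : w[i]? = some (u i) := by
  unfold IsPref at h
  rw [h]
  simp [pref, hi]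

/-- A letter of a short initial part is read off the table. -/
theorem img_get {w r : List Bool} (h : IsPref (w ++ r) uu) (i : ℕ) (hi : i < 676)
    (hl : i < w.length) : w[i]? = some (vv i) := by
  rw [← List.getElem?_append_left (l₂ := r) hl,
    isPref_getElem h i (by rw [List.length_append]; omega), uu_vv i hi]

theorem length_phi (k : ℕ) (a : Bool) : (phi k a).length = 3 * k + 1 := by
  cases a <;> simp [phi, mul_comm]

theorem not_image_tm (a b c : Bool) (r : List Bool) :
    ¬ IsPref ((a :: b :: c :: r).flatMap fun a => [a, !a]) uu := by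
  intro h
  rw [show a :: b :: c :: r = [a, b, c] ++ r from rfl, List.flatMap_append] at h
  have h4 := img_get h 4 (by norm_num) (by simp)
  have h5 := img_get h 5 (by norm_num) (by simp)
  clear h
  revert a b c
  decide

theorem not_image_phi (k : ℕ) (hk : 1 ≤ k) (a b c : Bool) (r : List Bool) :
    ¬ IsPref ((a :: b :: c :: r).flatMap (phi k)) uu := by
  intro h
  match k, hk with
  | 1, _ =>
    rw [show a :: b :: c :: r = [a, b, c] ++ r from rfl, List.flatMap_append] at h
    have h4 := img_get h 4 (by norm_num) (by simp [length_phi])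
    have h5 := img_get h 5 (by norm_num) (by simp [length_phi])
    clear h
    revert a b c
    decide
  | 2, _ =>
    rw [show a :: b :: c :: r = [a, b, c] ++ r from rfl, List.flatMap_append] at h
    have h4 := img_get h 14 (by norm_num) (by simp [length_phi])
    have h5 := img_get h 16 (by norm_num) (by simp [length_phi])
    clear h
    revert a b c
    decide
  | m + 3, _ =>
    rw [List.flatMap_cons] at h
    have h4 := img_get h 0 (by norm_num) (by rw [length_phi]; omega)
    have h5 := img_get h 8 (by norm_num) (by rw [length_phi]; omega)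
    have e1 : vv 0 = false := rfl
    have e2 : vv 8 = false := rfl
    rw [e1] at h4
    rw [e2] at h5
    revert h4 h5
    cases a <;> simp [phi, List.replicate_succ]

theorem le_length_flatMap {φ : Bool → List Bool} (h : ∀ a, 1 ≤ (φ a).length) (z : List Bool) :
    z.length ≤ (z.flatMap φ).length := by
  induction z with
  | nil => exact Nat.zero_le _
  | cons a z ih =>
    have := h a
    rw [List.flatMap_cons, List.length_append, List.length_cons]
    omega

/-- No image of a word with at least three letters begins the fixed point. -/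
theorem not_image {φ : Bool → List Bool} (hφ : (φ = fun a => [a, !a]) ∨ ∃ k, 1 ≤ k ∧ φ = phi k)
    {z : List Bool} (hz : 3 ≤ z.length) : ¬ IsPref (z.flatMap φ) uu := by
  match z, hz with
  | a :: b :: c :: r, _ =>
    rcases hφ with rfl | ⟨k, hk, rfl⟩
    · exact not_image_tm a b c r
    · exact not_image_phi k hk a b c r

theorem not_fixes_phi (k : ℕ) (hk : 1 ≤ k) : ¬ Fixes (phi k) uu := fun h =>
  not_image (.inr ⟨k, hk, rfl⟩) (length_pref uu 3).ge (h 3)

theorem not_fixes_prod (L : List (Bool → List Bool)) (h0 : L ≠ [])
    (hL : ∀ φ ∈ L, (φ = fun a => [a, !a]) ∨ ∃ k, 1 ≤ k ∧ φ = phi k) :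
    ¬ Fixes (fun a => L.foldr (fun φ w => w.flatMap φ) [a]) uu := by
  have key : ∀ L : List (Bool → List Bool),
      (∀ φ ∈ L, (φ = fun a => [a, !a]) ∨ ∃ k, 1 ≤ k ∧ φ = phi k) →
      ∀ a, 1 ≤ (L.foldr (fun φ w => w.flatMap φ) [a]).length := by
    intro L hL a
    induction L with
    | nil => exact le_rfl
    | cons φ L ih =>
      refine (ih fun ψ hψ => hL ψ (List.mem_cons_of_mem _ hψ)).trans (le_length_flatMap ?_ _)
      rcases hL φ List.mem_cons_self with rfl | ⟨k, -, rfl⟩
      · simp
      · intro b
        rw [length_phi]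
        omega
  match L, h0 with
  | φ :: L, _ =>
    intro h
    have h3 := h 3
    simp only [List.foldr_cons] at h3
    rw [← List.flatMap_assoc] at h3
    refine not_image (hL φ List.mem_cons_self) ?_ h3
    exact (length_pref uu 3).ge.trans
      (le_length_flatMap (key L fun ψ hψ => hL ψ (List.mem_cons_of_mem _ hψ)) _)

end Pool.Agent.Lib.MP_b60f05_co.W26
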